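import Mathlib
import Pool.Agent.H20R3.MG.Assemble
import Pool.Agent.H20R3.MG.Sys4
import Pool.Agent.H20R3.MG.MCondOf

/-!
# Pathwise connected, locally pathwise connected group topologies on abelian M-groups
-/

namespace Pool.Agent.Results.MP_451483_gt.PathConnected

universe u

/-- `X` is closed in every Hausdorff group topology on `G`. -/
def UnconditionallyClosed {G : Type u} [AddCommGroup G] (X : Set G) : Prop :=
  ∀ τ : TopologicalSpace G, @IsTopologicalAddGroup G τ _ → @T2Space G τ → @IsClosed G τ X

/-- `G` is an M-group: every proper unconditionally closed subgroup has index at least the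
cardinality of the continuum. -/
def IsMGroup (G : Type u) [AddCommGroup G] : Prop :=
  ∀ H : AddSubgroup G, H ≠ ⊤ → UnconditionallyClosed (H : Set G) →
    Cardinal.continuum ≤ Cardinal.mk (G ⧸ H)

/-- Every open neighbourhood `U` of every point `x` contains the closure of an open
neighbourhood `V` of `x` whose closure is pathwise connected. -/
def LocallyPathwiseConnected (X : Type u) [TopologicalSpace X] : Prop :=
  ∀ (x : X) (U : Set X), IsOpen U → x ∈ U →
    ∃ V : Set X, IsOpen V ∧ x ∈ V ∧ closure V ⊆ U ∧ IsPathConnected (closure V)

/-- Every abelian M-group admits a metrizable group topology that is pathwise connected and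
locally pathwise connected. -/
theorem result (G : Type u) [AddCommGroup G] (hG : IsMGroup G) :
    ∃ τ : TopologicalSpace G, @IsTopologicalAddGroup G τ _ ∧ @T2Space G τ ∧
      @TopologicalSpace.MetrizableSpace G τ ∧ @PathConnectedSpace G τ ∧
      @LocallyPathwiseConnected G τ :=
  Pool.Agent.H20R3.MG.hasTop_of_hasSystem G
    (Pool.Agent.H20R3.MG.hasSystem G (Pool.Agent.H20R3.MG.mCond_of hG))

end Pool.Agent.Results.MP_451483_gt.PathConnected
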